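import Pool.Agent.H.MP_fc6706_an.Defs

set_option autoImplicit false

namespace Pool.Agent.H.MP_fc6706_an

open MeasureTheory Filter Topology Set
open scoped ENNReal ContDiff

noncomputable section

/-! One-dimensional ingredients. -/

/-- smooth monotone profile from `-1` to `1`. -/
def eta (t : ℝ) : ℝ := 2 * Real.smoothTransition ((t + 1) / 2) - 1

lemma eta_contDiff : ContDiff ℝ ∞ eta := by
  unfold eta
  have h : ContDiff ℝ ∞ Real.smoothTransition := Real.smoothTransition.contDiff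
  fun_prop

lemma eta_of_le {t : ℝ} (h : t ≤ -1) : eta t = -1 := by
  unfold eta
  rw [Real.smoothTransition.zero_of_nonpos (by linarith)]; norm_num

lemma eta_of_ge {t : ℝ} (h : 1 ≤ t) : eta t = 1 := by
  unfold eta
  rw [Real.smoothTransition.one_of_one_le (by linarith)]; norm_num

lemma eta_le (t : ℝ) : eta t ≤ 1 := by
  unfold eta
  have := Real.smoothTransition.le_one ((t + 1) / 2)
  linarith

lemma le_eta (t : ℝ) : -1 ≤ eta t := by
  unfold eta
  have := Real.smoothTransition.nonneg ((t + 1) / 2)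
  linarith

/-- `q = 1 - eta^2`. -/
def qq (t : ℝ) : ℝ := 1 - eta t ^ 2

lemma qq_contDiff : ContDiff ℝ ∞ qq := by
  unfold qq
  have := eta_contDiff
  fun_prop

lemma qq_nonneg (t : ℝ) : 0 ≤ qq t := by
  unfold qq
  nlinarith [eta_le t, le_eta t]

lemma qq_le (t : ℝ) : qq t ≤ 1 := by
  unfold qq
  nlinarith [sq_nonneg (eta t)]

lemma qq_zero {t : ℝ} (h : 1 < |t|) : qq t = 0 := by
  unfold qq
  rcases lt_abs.1 h with h | h
  · rw [eta_of_ge h.le]; norm_num
  · rw [eta_of_le (by linarith)]; norm_num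

lemma qq_eventually {t : ℝ} (h : 1 < |t|) : qq =ᶠ[𝓝 t] fun _ => 0 := by
  have : ∀ᶠ s in 𝓝 t, 1 < |s| := (continuous_abs.tendsto t).eventually (lt_mem_nhds h)
  filter_upwards [this] with s hs
  exact qq_zero hs

lemma eta_eventually {t : ℝ} (h : 1 < |t|) : eta =ᶠ[𝓝 t] fun _ => eta t := by
  rcases lt_abs.1 h with h | h
  · filter_upwards [lt_mem_nhds h] with s hs
    rw [eta_of_ge hs.le, eta_of_ge h.le]
  · have : t < -1 := by linarith
    filter_upwards [gt_mem_nhds this] with s hs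
    rw [eta_of_le hs.le, eta_of_le this.le]

lemma deriv_eta_zero {t : ℝ} (h : 1 < |t|) : deriv eta t = 0 := by
  rw [(eta_eventually h).deriv_eq]; simp

lemma deriv_qq_zero {t : ℝ} (h : 1 < |t|) : deriv qq t = 0 := by
  rw [(qq_eventually h).deriv_eq]; simp

lemma deriv_deriv_qq_zero {t : ℝ} (h : 1 < |t|) : deriv (deriv qq) t = 0 := by
  have : deriv qq =ᶠ[𝓝 t] fun _ => 0 := by
    have h1 : ∀ᶠ s in 𝓝 t, 1 < |s| := (continuous_abs.tendsto t).eventually (lt_mem_nhds h)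
    filter_upwards [h1] with s hs
    exact deriv_qq_zero hs
  rw [this.deriv_eq]; simp

/-- a continuous function vanishing for `|t| > 1` is bounded -/
lemma bdd_of_zero {f : ℝ → ℝ} (hf : Continuous f) (h0 : ∀ t, 1 < |t| → f t = 0) :
    ∃ B, 0 ≤ B ∧ ∀ t, |f t| ≤ B := by
  obtain ⟨B, hB⟩ := (isCompact_Icc (a := (-1 : ℝ)) (b := 1)).exists_bound_of_continuousOn
    hf.continuousOn
  refine ⟨max B 0, le_max_right _ _, fun t => ?_⟩
  by_cases h : 1 < |t|
  · rw [h0 t h]; simp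
  · exact (hB t (abs_le.1 (not_lt.1 h))).trans (le_max_left _ _)

/-- a continuous 1-periodic function is bounded -/
lemma bdd_of_periodic {f : ℝ → ℝ} (hf : Continuous f) (hp : Function.Periodic f 1) :
    ∃ B, 0 ≤ B ∧ ∀ t, |f t| ≤ B := by
  obtain ⟨B, hB⟩ := (isCompact_Icc (a := (0 : ℝ)) (b := 1)).exists_bound_of_continuousOn
    hf.continuousOn
  refine ⟨max B 0, le_max_right _ _, fun t => ?_⟩
  obtain ⟨y, hy, e⟩ := hp.exists_mem_Ico₀ one_pos t
  rw [e]
  exact (hB y ⟨hy.1, hy.2.le⟩).trans (le_max_left _ _)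

lemma eta_deriv_bdd : ∃ B, 0 ≤ B ∧ ∀ t, |deriv eta t| ≤ B :=
  bdd_of_zero (eta_contDiff.continuous_deriv (by simp)) (fun _ => deriv_eta_zero)

lemma qq_deriv_bdd : ∃ B, 0 ≤ B ∧ ∀ t, |deriv qq t| ≤ B :=
  bdd_of_zero (qq_contDiff.continuous_deriv (by simp)) (fun _ => deriv_qq_zero)

lemma qq_deriv_contDiff : ContDiff ℝ ∞ (deriv qq) :=
  (contDiff_infty_iff_deriv.1 qq_contDiff).2

lemma qq_deriv2_bdd : ∃ B, 0 ≤ B ∧ ∀ t, |deriv (deriv qq) t| ≤ B :=
  bdd_of_zero (qq_deriv_contDiff.continuous_deriv (by simp)) (fun _ => deriv_deriv_qq_zero)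

/-- concavity bound -/
lemma rpow_le_tangent {p : ℝ} (hp0 : 0 < p) (hp1 : p < 1) {h K : ℝ} (hh : 0 ≤ h) (hK : 0 < K) :
    h ^ p ≤ p * K ^ (p - 1) * h + (1 - p) * K ^ p := by
  have h1 := Real.geom_mean_le_arith_mean2_weighted hp0.le (by linarith : (0:ℝ) ≤ 1 - p) hh hK.le
    (by ring)
  have h2 : h ^ p = h ^ p * K ^ (1 - p) * K ^ (p - 1) := by
    rw [mul_assoc, ← Real.rpow_add hK]; norm_num
  rw [h2]
  calc h ^ p * K ^ (1 - p) * K ^ (p - 1) ≤ (p * h + (1 - p) * K) * K ^ (p - 1) := by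
        gcongr
    _ = p * K ^ (p - 1) * h + (1 - p) * (K * K ^ (p - 1)) := by ring
    _ = _ := by
      congr 2
      rw [← Real.rpow_one_add' hK.le (by linarith)]
      congr 1; ring

end

end Pool.Agent.H.MP_fc6706_an
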