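import Mathlib

set_option autoImplicit false

namespace Pool.Agent.H.MP_fc6706_an

open MeasureTheory Filter Topology Set
open scoped ENNReal ContDiff RealInnerProductSpace

noncomputable section

/-- The Euclidean plane `ℝ²`. -/
abbrev Plane := EuclideanSpace ℝ (Fin 2)

/-- The partial derivative `∂_i u_j` at `x`. -/
def pd (u : Plane → Plane) (i j : Fin 2) (x : Plane) : ℝ :=
  fderiv ℝ (fun y => u y j) x (EuclideanSpace.single i 1)

/-- The energy density `(1/ε) ||u|²-1|^p + ε |∇u|²`. -/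
def dens (p ε : ℝ) (u : Plane → Plane) (x : Plane) : ℝ :=
  (1 / ε) * |‖u x‖ ^ 2 - 1| ^ p + ε * ∑ i, ∑ j, (pd u i j x) ^ 2

/-- The Aviles-Giga type energy `F^p_ε(u) = ∫_Ω (1/ε) ||u|²-1|^p + ε |∇u|²`,
as an extended nonnegative number. -/
def energy (p ε : ℝ) (Ω : Set Plane) (u : Plane → Plane) : ℝ≥0∞ :=
  ∫⁻ x in Ω, ENNReal.ofReal (dens p ε u x)

/-- The open square `(-1,1)²`. -/
def square : Set Plane := {x | |x 0| < 1 ∧ |x 1| < 1}

/-- The wall `u(x) = (√(1-a²), a)` for `x₁ > 0` and `(√(1-a²), -a)` for `x₁ ≤ 0`. -/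
def wall (a : ℝ) (x : Plane) : Plane := !₂[√(1 - a ^ 2), if 0 < x 0 then a else -a]

/-- The one-dimensional wall cost `K_p(z) = 2 ∫_{-√(1-z²)}^{√(1-z²)} (1-z²-y²)^{p/2} dy`. -/
def wallCost (p z : ℝ) : ℝ :=
  2 * ∫ y in (-√(1 - z ^ 2))..√(1 - z ^ 2), (1 - z ^ 2 - y ^ 2) ^ (p / 2)

/-- The open half disc of centre `x` and radius `r` on the side of the unit vector `ν`. -/
def halfBall (x : Plane) (r : ℝ) (ν : Plane) : Set Plane :=
  {y | y ∈ Metric.ball x r ∧ 0 < ⟪y - x, ν⟫}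

/-- The mean value of `|u - a|` over a set `S`. -/
def meanDist (u : Plane → Plane) (a : Plane) (S : Set Plane) : ℝ≥0∞ :=
  (∫⁻ y in S, ‖u y - a‖ₑ) / volume S

/-- `x` is an approximate jump point of `u` with normal `ν` and one-sided traces `a` (on the
side of `ν`) and `b` (on the other side). -/
def IsJump (u : Plane → Plane) (x ν a b : Plane) : Prop :=
  ‖ν‖ = 1 ∧ a ≠ b ∧
  Tendsto (fun r : ℝ => meanDist u a (halfBall x r ν)) (𝓝[>] 0) (𝓝 0) ∧
  Tendsto (fun r : ℝ => meanDist u b (halfBall x r (-ν))) (𝓝[>] 0) (𝓝 0)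

/-- The jump set `J_u` in `Ω`. -/
def jumpSet (Ω : Set Plane) (u : Plane → Plane) : Set Plane :=
  {x | x ∈ Ω ∧ ∃ ν a b, IsJump u x ν a b}

/-- The wall energy `∫_{J_u} K_p(u·ν) dH¹`; at a jump point `u·ν` is the normal component of the
trace on the side of `ν` (the supremum over the admissible triples removes the choice
`(ν,a,b)` or `(-ν,b,a)`). -/
def jumpEnergy (p : ℝ) (Ω : Set Plane) (u : Plane → Plane) : ℝ≥0∞ :=
  ∫⁻ x in jumpSet Ω u,
    (⨆ (ν : Plane) (a : Plane) (b : Plane) (_ : IsJump u x ν a b),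
      ENNReal.ofReal (wallCost p ⟪a, ν⟫)) ∂μH[1]

end

end Pool.Agent.H.MP_fc6706_an
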