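import Pool.Agent.H.MP_fc6706_an.Field

set_option autoImplicit false

namespace Pool.Agent.H.MP_fc6706_an

open MeasureTheory Filter Topology Set
open scoped ENNReal ContDiff

noncomputable section

variable {a z c : ℝ} {h : ℝ → ℝ} {d : ℝ}

lemma fld_norm_sq (x : Plane) : ‖fld a z c h d x‖ ^ 2 =
    (z - c * (qq (x 0 / d) * (h (x 1 / d) - 1))) ^ 2 +
    (a * eta (x 0 / d) + c * (deriv qq (x 0 / d) * gg h (x 1 / d))) ^ 2 := by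
  rw [EuclideanSpace.real_norm_sq_eq, Fin.sum_univ_two, fld_zero, fld_one]

lemma fld_defect (haz : z ^ 2 + a ^ 2 = 1) (hc2 : 2 * z * c = a ^ 2) (x : Plane) :
    ‖fld a z c h d x‖ ^ 2 - 1 = -(a ^ 2 * (qq (x 0 / d) * h (x 1 / d))) +
      (c ^ 2 * qq (x 0 / d) ^ 2 * (h (x 1 / d) - 1) ^ 2 +
       2 * a * eta (x 0 / d) * c * deriv qq (x 0 / d) * gg h (x 1 / d) +
       c ^ 2 * deriv qq (x 0 / d) ^ 2 * gg h (x 1 / d) ^ 2) := by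
  rw [fld_norm_sq]
  have e : eta (x 0 / d) ^ 2 = 1 - qq (x 0 / d) := by unfold qq; ring
  have e1 : a ^ 2 * eta (x 0 / d) ^ 2 = a ^ 2 * (1 - qq (x 0 / d)) := by rw [e]
  linear_combination haz - (qq (x 0 / d) * (h (x 1 / d) - 1)) * hc2 + e1

lemma dens_outside {p ε : ℝ} (hp : 0 < p) (haz : z ^ 2 + a ^ 2 = 1) (hc2 : 2 * z * c = a ^ 2)
    (hc : ContDiff ℝ ∞ h) {x : Plane} (hx : 1 < |x 0 / d|) : dens p ε (fld a z c h d) x = 0 := by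
  unfold dens
  rw [fld_defect haz hc2]
  simp only [Fin.sum_univ_two]
  rw [pd00 hc, pd01 hc, pd10 hc, pd11 hc, qq_zero hx, deriv_qq_zero hx, deriv_eta_zero hx,
    deriv_deriv_qq_zero hx]
  simp [Real.zero_rpow hp.ne']

lemma dens_nonneg {p ε : ℝ} (hε : 0 < ε) (u : Plane → Plane) (x : Plane) : 0 ≤ dens p ε u x := by
  unfold dens
  positivity

/-- real inequality for the potential part -/
lemma pot_real {p B q q1 e H G : ℝ} (hp : 0 < p) (hp1 : p < 1)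
    (ha : 0 < a) (ha1 : a ≤ 1) (hc0 : 0 < c) (hca : c ≤ a ^ 2) (q0 : 0 ≤ q) (qle : q ≤ 1)
    (bq1 : |q1| ≤ B) (be : |e| ≤ 1) (bG : |G| ≤ B) (bH : |H - 1| ≤ B) (H0 : 0 ≤ H) (hB : 1 ≤ B) :
    |-(a ^ 2 * (q * H)) + (c ^ 2 * q ^ 2 * (H - 1) ^ 2 + 2 * a * e * c * q1 * G +
      c ^ 2 * q1 ^ 2 * G ^ 2)| ^ p ≤ a ^ (2 * p) * H ^ p + (4 * B ^ 4 * a ^ 3) ^ p := by
  have B0 : 0 ≤ B := by linarith
  have hca2 : c ^ 2 ≤ a ^ 4 := by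
    calc c ^ 2 ≤ (a ^ 2) ^ 2 := pow_le_pow_left₀ hc0.le hca 2
      _ = a ^ 4 := by ring
  have ha43 : a ^ 4 ≤ a ^ 3 := pow_le_pow_of_le_one ha.le ha1 (by norm_num)
  have hsq1 : (H - 1) ^ 2 ≤ B ^ 2 := by
    rw [← sq_abs]; exact pow_le_pow_left₀ (abs_nonneg _) bH 2
  have hsq2 : q1 ^ 2 ≤ B ^ 2 := by
    rw [← sq_abs]; exact pow_le_pow_left₀ (abs_nonneg _) bq1 2
  have hsq3 : G ^ 2 ≤ B ^ 2 := by
    rw [← sq_abs]; exact pow_le_pow_left₀ (abs_nonneg _) bG 2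
  have hB24 : B ^ 2 ≤ B ^ 4 := pow_le_pow_right₀ hB (by norm_num)
  have t1 : |c ^ 2 * q ^ 2 * (H - 1) ^ 2| ≤ a ^ 3 * B ^ 4 := by
    rw [abs_of_nonneg (by positivity)]
    calc c ^ 2 * q ^ 2 * (H - 1) ^ 2 ≤ a ^ 3 * 1 * B ^ 4 := by
          gcongr
          · exact hca2.trans ha43
          · exact pow_le_one₀ q0 qle
          · exact hsq1.trans hB24
      _ = _ := by ring
  have t2 : |2 * a * e * c * q1 * G| ≤ 2 * (a ^ 3 * B ^ 4) := by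
    have : |2 * a * e * c * q1 * G| = 2 * a * |e| * c * |q1| * |G| := by
      simp only [abs_mul, abs_of_pos ha, abs_of_pos hc0, abs_two]
    rw [this]
    calc 2 * a * |e| * c * |q1| * |G| ≤ 2 * a * 1 * a ^ 2 * B * B := by gcongr
      _ = 2 * (a ^ 3 * B ^ 2) := by ring
      _ ≤ _ := by gcongr
  have t3 : |c ^ 2 * q1 ^ 2 * G ^ 2| ≤ a ^ 3 * B ^ 4 := by
    rw [abs_of_nonneg (by positivity)]
    calc c ^ 2 * q1 ^ 2 * G ^ 2 ≤ a ^ 3 * B ^ 2 * B ^ 2 := by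
          gcongr
          exact hca2.trans ha43
      _ = _ := by ring
  have hRb : |c ^ 2 * q ^ 2 * (H - 1) ^ 2 + 2 * a * e * c * q1 * G +
      c ^ 2 * q1 ^ 2 * G ^ 2| ≤ 4 * B ^ 4 * a ^ 3 := by
    calc _ ≤ |c ^ 2 * q ^ 2 * (H - 1) ^ 2| + |2 * a * e * c * q1 * G| +
          |c ^ 2 * q1 ^ 2 * G ^ 2| := abs_add_three _ _ _
      _ ≤ a ^ 3 * B ^ 4 + 2 * (a ^ 3 * B ^ 4) + a ^ 3 * B ^ 4 := by gcongr
      _ = _ := by ring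
  set R := c ^ 2 * q ^ 2 * (H - 1) ^ 2 + 2 * a * e * c * q1 * G + c ^ 2 * q1 ^ 2 * G ^ 2 with hR
  have hmain : |-(a ^ 2 * (q * H)) + R| ≤ a ^ 2 * H + 4 * B ^ 4 * a ^ 3 := by
    calc |-(a ^ 2 * (q * H)) + R| ≤ |-(a ^ 2 * (q * H))| + |R| := abs_add_le _ _
      _ = a ^ 2 * (q * H) + |R| := by rw [abs_neg, abs_of_nonneg (by positivity)]
      _ ≤ a ^ 2 * (1 * H) + 4 * B ^ 4 * a ^ 3 := by gcongr
      _ = _ := by ring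
  calc |-(a ^ 2 * (q * H)) + R| ^ p ≤ (a ^ 2 * H + 4 * B ^ 4 * a ^ 3) ^ p := by gcongr
    _ ≤ (a ^ 2 * H) ^ p + (4 * B ^ 4 * a ^ 3) ^ p :=
        Real.rpow_add_le_add_rpow (by positivity) (by positivity) hp.le hp1.le
    _ = a ^ (2 * p) * H ^ p + (4 * B ^ 4 * a ^ 3) ^ p := by
        rw [Real.mul_rpow (by positivity) H0, Real.rpow_mul ha.le]
        norm_num

lemma sq_add_le (x y : ℝ) : (x + y) ^ 2 ≤ 2 * x ^ 2 + 2 * y ^ 2 := by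
  nlinarith [sq_nonneg (x - y)]

/-- real inequality for the gradient part -/
lemma grad_real {A B q q1 q2 e1 H H1 G : ℝ}
    (hc0 : 0 < c) (hca : c ≤ a ^ 2) (q0 : 0 ≤ q) (qle : q ≤ 1)
    (bq1 : |q1| ≤ B) (bq2 : |q2| ≤ B) (be1 : |e1| ≤ A) (bG : |G| ≤ B) (bH : |H - 1| ≤ B)
    (bH1 : |H1| ≤ B) (hB : 1 ≤ B) :
    (c * ((H - 1) * q1)) ^ 2 + (a * e1 + c * (G * q2)) ^ 2 +
        ((c * (q * H1)) ^ 2 + (c * (q1 * (H - 1))) ^ 2) ≤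
        2 * a ^ 2 * A ^ 2 + 5 * a ^ 4 * B ^ 4 := by
  have B0 : 0 ≤ B := by linarith
  have hca2 : c ^ 2 ≤ a ^ 4 := by
    calc c ^ 2 ≤ (a ^ 2) ^ 2 := pow_le_pow_left₀ hc0.le hca 2
      _ = a ^ 4 := by ring
  have hsq1 : (H - 1) ^ 2 ≤ B ^ 2 := by
    rw [← sq_abs]; exact pow_le_pow_left₀ (abs_nonneg _) bH 2
  have hsq2 : q1 ^ 2 ≤ B ^ 2 := by
    rw [← sq_abs]; exact pow_le_pow_left₀ (abs_nonneg _) bq1 2
  have hsq3 : G ^ 2 ≤ B ^ 2 := by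
    rw [← sq_abs]; exact pow_le_pow_left₀ (abs_nonneg _) bG 2
  have hsq4 : q2 ^ 2 ≤ B ^ 2 := by
    rw [← sq_abs]; exact pow_le_pow_left₀ (abs_nonneg _) bq2 2
  have hsq5 : H1 ^ 2 ≤ B ^ 2 := by
    rw [← sq_abs]; exact pow_le_pow_left₀ (abs_nonneg _) bH1 2
  have hsq6 : e1 ^ 2 ≤ A ^ 2 := by
    rw [← sq_abs]; exact pow_le_pow_left₀ (abs_nonneg _) be1 2
  have hB24 : B ^ 2 ≤ B ^ 4 := pow_le_pow_right₀ hB (by norm_num)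
  have hq2' : q ^ 2 ≤ 1 := pow_le_one₀ q0 qle
  have s1 : (c * ((H - 1) * q1)) ^ 2 ≤ a ^ 4 * B ^ 4 := by
    calc (c * ((H - 1) * q1)) ^ 2 = c ^ 2 * (H - 1) ^ 2 * q1 ^ 2 := by ring
      _ ≤ a ^ 4 * B ^ 2 * B ^ 2 := by gcongr
      _ = _ := by ring
  have s2 : (c * (G * q2)) ^ 2 ≤ a ^ 4 * B ^ 4 := by
    calc (c * (G * q2)) ^ 2 = c ^ 2 * G ^ 2 * q2 ^ 2 := by ring
      _ ≤ a ^ 4 * B ^ 2 * B ^ 2 := by gcongr
      _ = _ := by ring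
  have s3 : (c * (q * H1)) ^ 2 ≤ a ^ 4 * B ^ 4 := by
    calc (c * (q * H1)) ^ 2 = c ^ 2 * q ^ 2 * H1 ^ 2 := by ring
      _ ≤ a ^ 4 * 1 * B ^ 4 := by
        gcongr
        exact hsq5.trans hB24
      _ = _ := by ring
  have s4 : (a * e1) ^ 2 ≤ a ^ 2 * A ^ 2 := by
    calc (a * e1) ^ 2 = a ^ 2 * e1 ^ 2 := by ring
      _ ≤ _ := by gcongr
  have s5 := sq_add_le (a * e1) (c * (G * q2))
  have s6 : (c * (q1 * (H - 1))) ^ 2 = (c * ((H - 1) * q1)) ^ 2 := by ring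
  rw [s6]
  generalize (c * ((H - 1) * q1)) ^ 2 = x1 at *
  generalize (c * (G * q2)) ^ 2 = x2 at *
  generalize (c * (q * H1)) ^ 2 = x3 at *
  generalize (a * e1) ^ 2 = x4 at *
  generalize (a * e1 + c * (G * q2)) ^ 2 = x5 at *
  linarith

lemma dens_inside {p ε A B : ℝ} (hp : 0 < p) (hp1 : p < 1) (hε : 0 < ε) (hd : 0 < d)
    (ha : 0 < a) (ha1 : a ≤ 1) (hc0 : 0 < c) (hca : c ≤ a ^ 2)
    (haz : z ^ 2 + a ^ 2 = 1) (hc2 : 2 * z * c = a ^ 2)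
    (hc : ContDiff ℝ ∞ h) (hh : ∀ t, 0 ≤ h t) (hA : ∀ t, |deriv eta t| ≤ A) (hB : 1 ≤ B)
    (hB1 : ∀ t, |deriv qq t| ≤ B) (hB2 : ∀ t, |deriv (deriv qq) t| ≤ B)
    (hB3 : ∀ t, |gg h t| ≤ B) (hB4 : ∀ t, |h t - 1| ≤ B) (hB5 : ∀ t, |deriv h t| ≤ B)
    (x : Plane) :
    dens p ε (fld a z c h d) x ≤ (1 / ε) * (a ^ (2 * p) * h (x 1 / d) ^ p +
      (4 * B ^ 4 * a ^ 3) ^ p) + (ε / d ^ 2) * (2 * a ^ 2 * A ^ 2 + 5 * a ^ 4 * B ^ 4) := by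
  unfold dens
  have be : |eta (x 0 / d)| ≤ 1 := abs_le.2 ⟨le_eta _, eta_le _⟩
  have hpot : |‖fld a z c h d x‖ ^ 2 - 1| ^ p ≤
      a ^ (2 * p) * h (x 1 / d) ^ p + (4 * B ^ 4 * a ^ 3) ^ p := by
    rw [fld_defect haz hc2]
    exact pot_real hp hp1 ha ha1 hc0 hca (qq_nonneg _) (qq_le _) (hB1 _) be (hB3 _) (hB4 _)
      (hh _) hB
  have hgrad : ε * ∑ i, ∑ j, (pd (fld a z c h d) i j x) ^ 2 ≤
      (ε / d ^ 2) * (2 * a ^ 2 * A ^ 2 + 5 * a ^ 4 * B ^ 4) := by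
    simp only [Fin.sum_univ_two]
    rw [pd00 hc, pd01 hc, pd10 hc, pd11 hc]
    have key := grad_real (a := a) hc0 hca (qq_nonneg (x 0 / d)) (qq_le (x 0 / d))
      (hB1 (x 0 / d)) (hB2 (x 0 / d)) (hA (x 0 / d)) (hB3 (x 1 / d)) (hB4 (x 1 / d))
      (hB5 (x 1 / d)) hB
    refine le_trans (le_of_eq ?_) (mul_le_mul_of_nonneg_left key (by positivity : 0 ≤ ε / d ^ 2))
    field_simp
  exact add_le_add (mul_le_mul_of_nonneg_left hpot (by positivity)) hgrad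

end

end Pool.Agent.H.MP_fc6706_an
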