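import Pool.Agent.H.MP_fc6706_an.Density

set_option autoImplicit false

namespace Pool.Agent.H.MP_fc6706_an

open MeasureTheory Filter Topology Set
open scoped ENNReal ContDiff

noncomputable section

lemma measurable_coord (i : Fin 2) : Measurable (fun x : Plane => x i) := by
  exact (EuclideanSpace.proj i : Plane →L[ℝ] ℝ).continuous.measurable

lemma measurableSet_square : MeasurableSet square := by
  unfold square
  have h0 := (measurable_coord 0).norm
  have h1 := (measurable_coord 1).norm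
  exact (measurableSet_lt h0 measurable_const).inter (measurableSet_lt h1 measurable_const)

lemma lint_plane {F : ℝ × ℝ → ℝ≥0∞} (hF : Measurable F) :
    ∫⁻ x : Plane, F (x 0, x 1) = ∫⁻ s : ℝ, ∫⁻ t : ℝ, F (s, t) := by
  have h1 : MeasurePreserving (fun x : Plane => (x 0, x 1)) volume (volume : Measure (ℝ × ℝ)) :=
    (volume_preserving_finTwoArrow ℝ).comp (EuclideanSpace.volume_preserving_symm_measurableEquiv_toLp (Fin 2))
  rw [h1.lintegral_comp hF, Measure.volume_eq_prod, lintegral_prod _ hF.aemeasurable]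

lemma per_bound {f : ℝ → ℝ} (hf : Continuous f) (hp : Function.Periodic f 1) (h0 : ∀ t, 0 ≤ f t)
    {L : ℝ} (hL : 0 ≤ L) : ∫ t in (-L)..L, f t ≤ (2 * L + 1) * ∫ t in (0:ℝ)..1, f t := by
  have hn1 : 2 * L ≤ (⌈2 * L⌉ : ℝ) := Int.le_ceil _
  have hn2 : (⌈2 * L⌉ : ℝ) ≤ 2 * L + 1 := (Int.ceil_lt_add_one _).le
  have hI : 0 ≤ ∫ t in (0:ℝ)..1, f t := intervalIntegral.integral_nonneg zero_le_one fun t _ => h0 t
  have e1 : ∫ t in (-L)..(-L + ⌈2 * L⌉ • (1:ℝ)), f t = ⌈2 * L⌉ • ∫ t in (-L)..(-L + 1), f t :=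
    hp.intervalIntegral_add_zsmul_eq ⌈2 * L⌉ (-L) (fun _ _ => hf.intervalIntegrable _ _)
  have e2 : ∫ t in (-L)..(-L + 1), f t = ∫ t in (0:ℝ)..1, f t := by
    have := hp.intervalIntegral_add_eq (-L) 0
    rw [this, zero_add]
  calc ∫ t in (-L)..L, f t ≤ ∫ t in (-L)..(-L + ⌈2 * L⌉ • (1:ℝ)), f t := by
        apply intervalIntegral.integral_mono_interval le_rfl (by linarith)
        · simp only [zsmul_eq_mul, mul_one]; linarith
        · exact Eventually.of_forall fun t => h0 t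
        · exact hf.intervalIntegrable _ _
    _ = ⌈2 * L⌉ * ∫ t in (0:ℝ)..1, f t := by rw [e1, e2]; simp
    _ ≤ _ := by gcongr

lemma per_bound' {f : ℝ → ℝ} (hf : Continuous f) (hp : Function.Periodic f 1) (h0 : ∀ t, 0 ≤ f t)
    {d : ℝ} (hd : 0 < d) (hd1 : d ≤ 1) :
    ∫ t in (-1:ℝ)..1, f (t / d) ≤ 3 * ∫ t in (0:ℝ)..1, f t := by
  have hI : 0 ≤ ∫ t in (0:ℝ)..1, f t := intervalIntegral.integral_nonneg zero_le_one fun t _ => h0 t
  rw [intervalIntegral.integral_comp_div (fun t => f t) hd.ne', smul_eq_mul]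
  have h := per_bound hf hp h0 (L := 1 / d) (by positivity)
  have e : (-1 : ℝ) / d = -(1 / d) := by ring
  rw [e]
  calc d * ∫ t in (-(1 / d))..(1 / d), f t ≤ d * ((2 * (1 / d) + 1) * ∫ t in (0:ℝ)..1, f t) := by
        gcongr
    _ = (2 + d) * ∫ t in (0:ℝ)..1, f t := by field_simp
    _ ≤ _ := by gcongr; linarith

variable {a z c : ℝ} {h : ℝ → ℝ} {d : ℝ}

lemma energy_bound {p ε A B M : ℝ} (hp : 0 < p) (hp1 : p < 1) (hε : 0 < ε) (hd : 0 < d)
    (hd1 : d ≤ 1)
    (ha : 0 < a) (ha1 : a ≤ 1) (hc0 : 0 < c) (hca : c ≤ a ^ 2)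
    (haz : z ^ 2 + a ^ 2 = 1) (hc2 : 2 * z * c = a ^ 2)
    (hc : ContDiff ℝ ∞ h) (hh : ∀ t, 0 ≤ h t) (hper : Function.Periodic h 1)
    (hM : ∫ t in (0:ℝ)..1, h t ^ p ≤ M)
    (hA : ∀ t, |deriv eta t| ≤ A) (hB : 1 ≤ B)
    (hB1 : ∀ t, |deriv qq t| ≤ B) (hB2 : ∀ t, |deriv (deriv qq) t| ≤ B)
    (hB3 : ∀ t, |gg h t| ≤ B) (hB4 : ∀ t, |h t - 1| ≤ B) (hB5 : ∀ t, |deriv h t| ≤ B) :
    energy p ε square (fld a z c h d) ≤ ENNReal.ofReal (2 * d * ((1 / ε) * (a ^ (2 * p) * (3 * M) +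
      2 * (4 * B ^ 4 * a ^ 3) ^ p) + 2 * (ε / d ^ 2) * (2 * a ^ 2 * A ^ 2 + 5 * a ^ 4 * B ^ 4))) := by
  set C1 := (4 * B ^ 4 * a ^ 3) ^ p with hC1
  set C2 := 2 * a ^ 2 * A ^ 2 + 5 * a ^ 4 * B ^ 4 with hC2
  have hC1n : 0 ≤ C1 := by positivity
  have hC2n : 0 ≤ C2 := by positivity
  set b : ℝ → ℝ := fun t => (1 / ε) * (a ^ (2 * p) * h (t / d) ^ p + C1) + (ε / d ^ 2) * C2 with hb
  have hfc : Continuous fun t => h t ^ p := hc.continuous.rpow_const fun _ => Or.inr hp.le
  have hbc : Continuous b := by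
    have h1 : Continuous fun t : ℝ => h (t / d) ^ p := hfc.comp (continuous_id.div_const d)
    exact ((continuous_const.mul ((continuous_const.mul h1).add continuous_const))).add
      continuous_const
  have hbn : ∀ t, 0 ≤ b t := by
    intro t
    have : 0 ≤ h (t / d) ^ p := Real.rpow_nonneg (hh _) _
    simp only [hb]
    positivity
  set F : ℝ × ℝ → ℝ≥0∞ := fun y =>
    (Icc (-d) d).indicator 1 y.1 * (Ioc (-1 : ℝ) 1).indicator (fun t => ENNReal.ofReal (b t)) y.2
    with hF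
  have hm1 : Measurable ((Icc (-d) d).indicator (1 : ℝ → ℝ≥0∞)) :=
    measurable_const.indicator measurableSet_Icc
  have hm2 : Measurable ((Ioc (-1 : ℝ) 1).indicator (fun t => ENNReal.ofReal (b t))) :=
    hbc.measurable.ennreal_ofReal.indicator measurableSet_Ioc
  have hFm : Measurable F := (hm1.comp measurable_fst).mul (hm2.comp measurable_snd)
  have step1 : energy p ε square (fld a z c h d) ≤ ∫⁻ x : Plane, F (x 0, x 1) := by
    unfold energy
    rw [← lintegral_indicator measurableSet_square]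
    apply lintegral_mono
    intro x
    by_cases hx : x ∈ square
    · rw [indicator_of_mem hx]
      by_cases hx0 : x 0 ∈ Icc (-d) d
      · have hx1 : x 1 ∈ Ioc (-1 : ℝ) 1 := ⟨(abs_lt.1 hx.2).1, (abs_lt.1 hx.2).2.le⟩
        simp only [hF, indicator_of_mem hx0, indicator_of_mem hx1, Pi.one_apply, one_mul]
        apply ENNReal.ofReal_le_ofReal
        exact dens_inside hp hp1 hε hd ha ha1 hc0 hca haz hc2 hc hh hA hB hB1 hB2 hB3 hB4 hB5 x
      · have : 1 < |x 0 / d| := by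
          rw [abs_div, abs_of_pos hd, lt_div_iff₀ hd, one_mul]
          by_contra hcon
          exact hx0 (abs_le.1 (not_lt.1 hcon))
        rw [dens_outside hp haz hc2 hc this]
        simp
    · rw [indicator_of_notMem hx]
      exact zero_le
  have step2 : ∫⁻ x : Plane, F (x 0, x 1) =
      ENNReal.ofReal (2 * d) * ∫⁻ t in Ioc (-1 : ℝ) 1, ENNReal.ofReal (b t) := by
    rw [lint_plane hFm]
    have e1 : ∀ s : ℝ, ∫⁻ t : ℝ, F (s, t) =
        (Icc (-d) d).indicator 1 s * ∫⁻ t in Ioc (-1 : ℝ) 1, ENNReal.ofReal (b t) := by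
      intro s
      simp only [hF]
      rw [lintegral_const_mul _ hm2, lintegral_indicator measurableSet_Ioc]
    simp only [e1]
    rw [lintegral_mul_const _ hm1, lintegral_indicator_one measurableSet_Icc, Real.volume_Icc]
    congr 2
    ring
  have step3 : ∫⁻ t in Ioc (-1 : ℝ) 1, ENNReal.ofReal (b t) =
      ENNReal.ofReal (∫ t in (-1:ℝ)..1, b t) := by
    rw [intervalIntegral.integral_of_le (by norm_num)]
    rw [ofReal_integral_eq_lintegral_ofReal]
    · exact (hbc.integrableOn_Ioc)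
    · exact Eventually.of_forall hbn
  have step4 : ∫ t in (-1:ℝ)..1, b t ≤ (1 / ε) * (a ^ (2 * p) * (3 * M) + 2 * C1) +
      2 * (ε / d ^ 2) * C2 := by
    have hcomp : Continuous fun t : ℝ => h (t / d) ^ p := hfc.comp (continuous_id.div_const d)
    have e : ∫ t in (-1:ℝ)..1, b t = (1 / ε) * (a ^ (2 * p) * (∫ t in (-1:ℝ)..1, h (t / d) ^ p)
        + 2 * C1) + 2 * (ε / d ^ 2) * C2 := by
      simp only [hb]
      rw [intervalIntegral.integral_add, intervalIntegral.integral_const_mul,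
        intervalIntegral.integral_add, intervalIntegral.integral_const_mul,
        intervalIntegral.integral_const, intervalIntegral.integral_const]
      · simp only [smul_eq_mul]; ring
      · exact (hcomp.intervalIntegrable _ _).const_mul _
      · simp
      · exact (((hcomp.intervalIntegrable _ _).const_mul _).add (by simp)).const_mul _
      · simp
    rw [e]
    have hper' : Function.Periodic (fun t => h t ^ p) 1 := by
      intro t; simp only [hper t]
    have h3 := per_bound' hfc hper' (fun t => Real.rpow_nonneg (hh t) p) hd hd1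
    have h4 : ∫ t in (-1:ℝ)..1, h (t / d) ^ p ≤ 3 * M := h3.trans (by gcongr)
    gcongr
  calc energy p ε square (fld a z c h d) ≤
      ENNReal.ofReal (2 * d) * ENNReal.ofReal (∫ t in (-1:ℝ)..1, b t) := by
        rw [← step3, ← step2]; exact step1
    _ = ENNReal.ofReal (2 * d * ∫ t in (-1:ℝ)..1, b t) := by
        rw [← ENNReal.ofReal_mul (by positivity : (0:ℝ) ≤ 2 * d)]
    _ ≤ _ := by
        apply ENNReal.ofReal_le_ofReal
        gcongr

end

end Pool.Agent.H.MP_fc6706_an
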