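import Pool.Agent.H.MP_fc6706_an.Osc

set_option autoImplicit false

namespace Pool.Agent.H.MP_fc6706_an

open MeasureTheory Filter Topology Set
open scoped ENNReal ContDiff

noncomputable section

/-- the rescaled oscillating field -/
def fld (a z c : ℝ) (h : ℝ → ℝ) (d : ℝ) (x : Plane) : Plane :=
  !₂[z - c * (qq (x 0 / d) * (h (x 1 / d) - 1)),
     a * eta (x 0 / d) + c * (deriv qq (x 0 / d) * gg h (x 1 / d))]

lemma fld_zero (a z c : ℝ) (h : ℝ → ℝ) (d : ℝ) (x : Plane) :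
    fld a z c h d x 0 = z - c * (qq (x 0 / d) * (h (x 1 / d) - 1)) := by
  simp [fld]

lemma fld_one (a z c : ℝ) (h : ℝ → ℝ) (d : ℝ) (x : Plane) :
    fld a z c h d x 1 = a * eta (x 0 / d) + c * (deriv qq (x 0 / d) * gg h (x 1 / d)) := by
  simp [fld]

lemma coord_contDiff (i : Fin 2) : ContDiff ℝ ∞ (fun x : Plane => x i) :=
  (EuclideanSpace.proj i : Plane →L[ℝ] ℝ).contDiff

lemma fld_contDiff (a z c : ℝ) {h : ℝ → ℝ} (hc : ContDiff ℝ ∞ h) (d : ℝ) :
    ContDiff ℝ ∞ (fld a z c h d) := by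
  have h0 := coord_contDiff 0
  have h1 := coord_contDiff 1
  have e0 : ContDiff ℝ ∞ (fun x : Plane => x 0 / d) := h0.div_const d
  have e1 : ContDiff ℝ ∞ (fun x : Plane => x 1 / d) := h1.div_const d
  have a1 := qq_contDiff.comp e0
  have a2 := hc.comp e1
  have a3 := eta_contDiff.comp e0
  have a4 := qq_deriv_contDiff.comp e0
  have a5 := (gg_contDiff hc).comp e1
  rw [contDiff_euclidean]
  intro i
  fin_cases i
  · simp only [Fin.zero_eta, fld_zero]
    exact contDiff_const.sub (contDiff_const.mul (a1.mul (a2.sub contDiff_const)))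
  · simp only [Fin.mk_one, fld_one]
    exact (contDiff_const.mul a3).add (contDiff_const.mul (a4.mul a5))

lemma comp_coord {f : ℝ → ℝ} {f' d : ℝ} (i : Fin 2) (x : Plane) (hf : HasDerivAt f f' (x i / d)) :
    HasFDerivAt (fun y : Plane => f (y i / d))
      ((f' / d) • (EuclideanSpace.proj i : Plane →L[ℝ] ℝ)) x := by
  have h1 : HasFDerivAt (fun y : Plane => y i) (EuclideanSpace.proj i : Plane →L[ℝ] ℝ) x :=
    (EuclideanSpace.proj i : Plane →L[ℝ] ℝ).hasFDerivAt
  have h2 : HasFDerivAt (fun y : Plane => y i / d)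
      ((1 / d) • (EuclideanSpace.proj i : Plane →L[ℝ] ℝ)) x := by
    have := h1.mul_const (1 / d)
    simpa [div_eq_mul_inv] using this
  have h3 := hf.comp_hasFDerivAt x h2
  have e : f' • ((1 / d) • (EuclideanSpace.proj i : Plane →L[ℝ] ℝ)) =
      (f' / d) • (EuclideanSpace.proj i : Plane →L[ℝ] ℝ) := by
    rw [smul_smul]; congr 1; ring
  rw [e] at h3
  exact h3

variable {a z c : ℝ} {h : ℝ → ℝ} {d : ℝ}

lemma fld0_fderiv (hc : ContDiff ℝ ∞ h) (x : Plane) :
    HasFDerivAt (fun y => fld a z c h d y 0)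
      (-(c • (qq (x 0 / d) • ((deriv h (x 1 / d) / d) • (EuclideanSpace.proj 1 : Plane →L[ℝ] ℝ)) +
        (h (x 1 / d) - 1) • ((deriv qq (x 0 / d) / d) •
          (EuclideanSpace.proj 0 : Plane →L[ℝ] ℝ))))) x := by
  simp only [fld_zero]
  have h1 := comp_coord (d := d) 0 x
    ((qq_contDiff.differentiable (by simp)) (x 0 / d)).hasDerivAt
  have h2 := (comp_coord (d := d) 1 x
    ((hc.differentiable (by simp)) (x 1 / d)).hasDerivAt).sub_const 1
  have h3 := ((h1.mul h2).const_mul c).const_sub z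
  exact h3

lemma fld1_fderiv (hc : ContDiff ℝ ∞ h) (x : Plane) :
    HasFDerivAt (fun y => fld a z c h d y 1)
      (a • ((deriv eta (x 0 / d) / d) • (EuclideanSpace.proj 0 : Plane →L[ℝ] ℝ)) +
       c • (deriv qq (x 0 / d) • (((h (x 1 / d) - 1) / d) •
            (EuclideanSpace.proj 1 : Plane →L[ℝ] ℝ)) +
        (gg h (x 1 / d)) • ((deriv (deriv qq) (x 0 / d) / d) •
          (EuclideanSpace.proj 0 : Plane →L[ℝ] ℝ)))) x := by
  simp only [fld_one]
  have h0 := comp_coord (d := d) 0 x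
    ((eta_contDiff.differentiable (by simp)) (x 0 / d)).hasDerivAt
  have h1 := comp_coord (d := d) 0 x
    ((qq_deriv_contDiff.differentiable (by simp)) (x 0 / d)).hasDerivAt
  have h2 := comp_coord (d := d) 1 x (gg_hasDerivAt hc.continuous (x 1 / d))
  exact (h0.const_mul a).add ((h1.mul h2).const_mul c)

lemma pd00 (hc : ContDiff ℝ ∞ h) (x : Plane) : pd (fld a z c h d) 0 0 x =
    -(c * ((h (x 1 / d) - 1) * (deriv qq (x 0 / d) / d))) := by
  unfold pd
  rw [(fld0_fderiv hc x).fderiv]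
  simp

lemma pd10 (hc : ContDiff ℝ ∞ h) (x : Plane) : pd (fld a z c h d) 1 0 x =
    -(c * (qq (x 0 / d) * (deriv h (x 1 / d) / d))) := by
  unfold pd
  rw [(fld0_fderiv hc x).fderiv]
  simp

lemma pd01 (hc : ContDiff ℝ ∞ h) (x : Plane) : pd (fld a z c h d) 0 1 x =
    a * (deriv eta (x 0 / d) / d) + c * (gg h (x 1 / d) * (deriv (deriv qq) (x 0 / d) / d)) := by
  unfold pd
  rw [(fld1_fderiv hc x).fderiv]
  simp

lemma pd11 (hc : ContDiff ℝ ∞ h) (x : Plane) : pd (fld a z c h d) 1 1 x =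
    c * (deriv qq (x 0 / d) * ((h (x 1 / d) - 1) / d)) := by
  unfold pd
  rw [(fld1_fderiv hc x).fderiv]
  simp

lemma fld_div (hc : ContDiff ℝ ∞ h) (x : Plane) :
    pd (fld a z c h d) 0 0 x + pd (fld a z c h d) 1 1 x = 0 := by
  rw [pd00 hc, pd11 hc]; ring

end

end Pool.Agent.H.MP_fc6706_an
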