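import Pool.Agent.H.MP_fc6706_an.JumpEnergy

set_option autoImplicit false

namespace Pool.Agent.H.MP_fc6706_an

open MeasureTheory Filter Topology Set
open scoped ENNReal ContDiff RealInnerProductSpace

noncomputable section

variable {a z c : ℝ} {h : ℝ → ℝ} {d : ℝ}

lemma fld_eq_wall (hz : z = √(1 - a ^ 2)) {x : Plane} (hd : 0 < d) (hx : d < |x 0|) :
    fld a z c h d x = wall a x := by
  have h1 : 1 < |x 0 / d| := by
    rw [abs_div, abs_of_pos hd, lt_div_iff₀ hd, one_mul]; exact hx
  apply plane_ext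
  · rw [fld_zero, qq_zero h1]
    unfold wall
    simp [hz]
  · rw [fld_one, deriv_qq_zero h1]
    unfold wall
    rcases lt_abs.1 h1 with h2 | h2
    · have : 0 < x 0 := by
        by_contra hcon
        have := div_nonpos_of_nonpos_of_nonneg (not_lt.1 hcon) hd.le
        linarith
      rw [eta_of_ge h2.le, if_pos this]; simp
    · have : ¬ 0 < x 0 := by
        intro hcon
        have := div_pos hcon hd
        linarith
      rw [eta_of_le (by linarith), if_neg this]; simp

lemma norm_le_abs (x : Plane) : ‖x‖ ≤ |x 0| + |x 1| := by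
  apply le_of_sq_le_sq _ (by positivity)
  rw [norm_sq_eq', ← sq_abs (x 0), ← sq_abs (x 1)]
  nlinarith [abs_nonneg (x 0), abs_nonneg (x 1)]

lemma fld_sub_wall_le {B : ℝ} (hz : z = √(1 - a ^ 2)) (ha : 0 < a) (ha1 : a ≤ 1) (hc0 : 0 < c)
    (hca : c ≤ a ^ 2) (hB : 1 ≤ B) (hB1 : ∀ t, |deriv qq t| ≤ B)
    (hB3 : ∀ t, |gg h t| ≤ B) (hB4 : ∀ t, |h t - 1| ≤ B) (x : Plane) :
    ‖fld a z c h d x - wall a x‖ ≤ 4 * B ^ 2 := by
  have B0 : 0 ≤ B := by linarith
  have hc1 : c ≤ 1 := hca.trans (by nlinarith)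
  have hBB : B ≤ B ^ 2 := by nlinarith
  refine (norm_le_abs _).trans ?_
  have e0 : (fld a z c h d x - wall a x) 0 = -(c * (qq (x 0 / d) * (h (x 1 / d) - 1))) := by
    rw [PiLp.sub_apply, fld_zero]
    unfold wall
    simp [hz]
  have b0 : |(fld a z c h d x - wall a x) 0| ≤ B ^ 2 := by
    rw [e0, abs_neg, abs_mul, abs_mul, abs_of_pos hc0, abs_of_nonneg (qq_nonneg _)]
    have q0 := qq_nonneg (x 0 / d)
    calc c * (qq (x 0 / d) * |h (x 1 / d) - 1|) ≤ 1 * (1 * B) := by
          gcongr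
          · exact qq_le _
          · exact hB4 _
      _ ≤ _ := by linarith
  have b1 : |(fld a z c h d x - wall a x) 1| ≤ 3 * B ^ 2 := by
    rw [PiLp.sub_apply, fld_one]
    have hw : |wall a x 1| ≤ 1 := by
      unfold wall
      split_ifs
      · simpa [abs_of_pos ha] using ha1
      · simpa [abs_of_pos ha] using ha1
    have he : |a * eta (x 0 / d)| ≤ 1 := by
      rw [abs_mul, abs_of_pos ha]
      have : |eta (x 0 / d)| ≤ 1 := abs_le.2 ⟨le_eta _, eta_le _⟩
      calc a * |eta (x 0 / d)| ≤ 1 * 1 := by gcongr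
        _ = 1 := by norm_num
    have hq : |c * (deriv qq (x 0 / d) * gg h (x 1 / d))| ≤ B ^ 2 := by
      rw [abs_mul, abs_mul, abs_of_pos hc0]
      calc c * (|deriv qq (x 0 / d)| * |gg h (x 1 / d)|) ≤ 1 * (B * B) := by
            gcongr
            · exact hB1 _
            · exact hB3 _
        _ = B ^ 2 := by ring
    calc |a * eta (x 0 / d) + c * (deriv qq (x 0 / d) * gg h (x 1 / d)) - wall a x 1|
        ≤ |a * eta (x 0 / d) + c * (deriv qq (x 0 / d) * gg h (x 1 / d))| + |wall a x 1| :=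
          abs_sub _ _
      _ ≤ |a * eta (x 0 / d)| + |c * (deriv qq (x 0 / d) * gg h (x 1 / d))| + |wall a x 1| := by
          gcongr; exact abs_add_le _ _
      _ ≤ 1 + B ^ 2 + 1 := by gcongr
      _ ≤ _ := by nlinarith
  linarith

lemma strip_volume (hd : 0 < d) : ∫⁻ x in square, (Icc (-d) d).indicator (1 : ℝ → ℝ≥0∞) (x 0) ≤
    ENNReal.ofReal (4 * d) := by
  have hm1 : Measurable ((Icc (-d) d).indicator (1 : ℝ → ℝ≥0∞)) :=
    measurable_const.indicator measurableSet_Icc
  have hm2 : Measurable ((Ioc (-1 : ℝ) 1).indicator (1 : ℝ → ℝ≥0∞)) :=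
    measurable_const.indicator measurableSet_Ioc
  set F : ℝ × ℝ → ℝ≥0∞ := fun y =>
    (Icc (-d) d).indicator 1 y.1 * (Ioc (-1 : ℝ) 1).indicator 1 y.2 with hF
  have hFm : Measurable F := (hm1.comp measurable_fst).mul (hm2.comp measurable_snd)
  calc ∫⁻ x in square, (Icc (-d) d).indicator (1 : ℝ → ℝ≥0∞) (x 0)
      ≤ ∫⁻ x : Plane, F (x 0, x 1) := by
        rw [← lintegral_indicator measurableSet_square]
        apply lintegral_mono
        intro x
        by_cases hx : x ∈ square
        · rw [indicator_of_mem hx]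
          have hx1 : x 1 ∈ Ioc (-1 : ℝ) 1 := ⟨(abs_lt.1 hx.2).1, (abs_lt.1 hx.2).2.le⟩
          simp only [hF, indicator_of_mem hx1, Pi.one_apply, mul_one]
          exact le_rfl
        · rw [indicator_of_notMem hx]; exact zero_le
    _ = ENNReal.ofReal (2 * d) * 2 := by
        rw [lint_plane hFm]
        have e1 : ∀ s : ℝ, ∫⁻ t : ℝ, F (s, t) = (Icc (-d) d).indicator 1 s * 2 := by
          intro s
          simp only [hF]
          rw [lintegral_const_mul _ hm2, lintegral_indicator_one measurableSet_Ioc,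
            Real.volume_Ioc]
          norm_num
        simp only [e1]
        rw [lintegral_mul_const _ hm1, lintegral_indicator_one measurableSet_Icc, Real.volume_Icc]
        congr 2
        ring
    _ ≤ _ := by
        rw [show (4 * d) = (2 * d) * 2 by ring, ENNReal.ofReal_mul (by positivity : 0 ≤ 2 * d),
          show ENNReal.ofReal (2 : ℝ) = 2 from by simp]

lemma L1_bound {B : ℝ} (hz : z = √(1 - a ^ 2)) (ha : 0 < a) (ha1 : a ≤ 1) (hc0 : 0 < c)
    (hca : c ≤ a ^ 2) (hd : 0 < d) (hB : 1 ≤ B) (hB1 : ∀ t, |deriv qq t| ≤ B)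
    (hB3 : ∀ t, |gg h t| ≤ B) (hB4 : ∀ t, |h t - 1| ≤ B) :
    ∫⁻ x in square, ‖fld a z c h d x - wall a x‖ₑ ≤ ENNReal.ofReal (4 * B ^ 2 * (4 * d)) := by
  calc ∫⁻ x in square, ‖fld a z c h d x - wall a x‖ₑ
      ≤ ∫⁻ x in square, ENNReal.ofReal (4 * B ^ 2) *
          (Icc (-d) d).indicator (1 : ℝ → ℝ≥0∞) (x 0) := by
        apply lintegral_mono
        intro x
        by_cases hx : x 0 ∈ Icc (-d) d
        · simp only [indicator_of_mem hx, Pi.one_apply, mul_one]
          rw [← ofReal_norm]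
          exact ENNReal.ofReal_le_ofReal
            (fld_sub_wall_le hz ha ha1 hc0 hca hB hB1 hB3 hB4 x)
        · have : d < |x 0| := by
            by_contra hcon
            exact hx (abs_le.1 (not_lt.1 hcon))
          simp only [fld_eq_wall hz hd this, sub_self, enorm_zero]
          exact zero_le
    _ = ENNReal.ofReal (4 * B ^ 2) *
        ∫⁻ x in square, (Icc (-d) d).indicator (1 : ℝ → ℝ≥0∞) (x 0) := by
        rw [lintegral_const_mul]
        exact (measurable_const.indicator measurableSet_Icc).comp (measurable_coord 0)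
    _ ≤ ENNReal.ofReal (4 * B ^ 2) * ENNReal.ofReal (4 * d) := by
        gcongr
        exact strip_volume hd
    _ = _ := by rw [← ENNReal.ofReal_mul (by positivity)]

end

end Pool.Agent.H.MP_fc6706_an
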