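import Pool.Agent.H.MP_fc6706_an.Energy

set_option autoImplicit false

namespace Pool.Agent.H.MP_fc6706_an

open MeasureTheory Filter Topology Set
open scoped ENNReal ContDiff RealInnerProductSpace Pointwise

noncomputable section

lemma isOpen_halfBall (x : Plane) (r : ℝ) (ν : Plane) : IsOpen (halfBall x r ν) := by
  unfold halfBall
  apply IsOpen.inter Metric.isOpen_ball
  exact isOpen_lt (f := fun _ : Plane => (0:ℝ)) (g := fun y : Plane => ⟪y - x, ν⟫)
    continuous_const (by fun_prop)

lemma halfBall_subset (x : Plane) (r : ℝ) (ν : Plane) : halfBall x r ν ⊆ Metric.ball x r :=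
  fun _ hy => hy.1

/-- translates and dilates of `U` lie in the half balls -/
lemma scale_subset {x ν : Plane} {r : ℝ} (hr : 0 < r) {U : Set Plane}
    (hU : U ⊆ halfBall 0 1 ν) : (fun y => x + r • y) '' U ⊆ halfBall x r ν := by
  rintro _ ⟨y, hy, rfl⟩
  have h := hU hy
  constructor
  · have h1 : ‖y‖ < 1 := by simpa using h.1
    rw [Metric.mem_ball, dist_eq_norm]
    simp only [add_sub_cancel_left, norm_smul, Real.norm_eq_abs, abs_of_pos hr]
    nlinarith
  · have h2 := h.2
    simp only [sub_zero] at h2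
    simp only [add_sub_cancel_left, inner_smul_left]
    simpa using mul_pos hr h2

lemma volume_scale (x : Plane) {r : ℝ} (hr : 0 < r) (U : Set Plane) :
    volume ((fun y => x + r • y) '' U) = ENNReal.ofReal (r ^ 2) * volume U := by
  have e : (fun y => x + r • y) '' U = (fun y => x + y) '' (r • U) := by
    rw [← Set.image_smul, Set.image_image]
  rw [e, Set.image_add_left, measure_preimage_add, Measure.addHaar_smul]
  simp [abs_of_pos hr]

/-- if `u` equals `c` on a fixed portion of the half balls, the trace is `c` -/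
lemma trace_eq {u : Plane → Plane} {x ν a c : Plane}
    (ht : Tendsto (fun r : ℝ => meanDist u a (halfBall x r ν)) (𝓝[>] 0) (𝓝 0))
    {U : Set Plane} (hU : IsOpen U) (hne : U.Nonempty) (hUs : U ⊆ halfBall 0 1 ν)
    (hc : ∀ᶠ r : ℝ in 𝓝[>] 0, ∀ y ∈ U, u (x + r • y) = c) : a = c := by
  by_contra hac
  have hca : ‖c - a‖ₑ ≠ 0 := by
    rw [enorm_ne_zero]; exact sub_ne_zero.2 (Ne.symm hac)
  set V := volume (Metric.ball (0 : Plane) 1) with hV
  have hVtop : V ≠ (⊤ : ℝ≥0∞) := measure_ball_lt_top.ne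
  have hVpos : V ≠ 0 := (Metric.measure_ball_pos volume (0 : Plane) one_pos).ne'
  have hUpos : volume U ≠ 0 := (hU.measure_pos volume hne).ne'
  set κ := ‖c - a‖ₑ * volume U / V with hκ
  have hκ0 : κ ≠ 0 := by
    rw [hκ]
    exact ENNReal.div_ne_zero.2 ⟨mul_ne_zero hca hUpos, hVtop⟩
  have hle : ∀ᶠ r : ℝ in 𝓝[>] 0, κ ≤ meanDist u a (halfBall x r ν) := by
    filter_upwards [hc, self_mem_nhdsWithin] with r hr hr0
    have hr0' : 0 < r := hr0
    have hsub := scale_subset (x := x) hr0' hUs
    have hmeas : MeasurableSet ((fun y => x + r • y) '' U) := by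
      have hopen : IsOpen ((fun y => x + r • y) '' U) := by
        have e : (fun y => x + r • y) '' U = (fun y => x + y) '' (r • U) := by
          rw [← Set.image_smul, Set.image_image]
        rw [e]
        exact (Homeomorph.addLeft x).isOpenMap _ (hU.smul₀ hr0'.ne')
      exact hopen.measurableSet
    have h1 : ‖c - a‖ₑ * (ENNReal.ofReal (r ^ 2) * volume U) ≤
        ∫⁻ y in halfBall x r ν, ‖u y - a‖ₑ := by
      calc ‖c - a‖ₑ * (ENNReal.ofReal (r ^ 2) * volume U)
          = ∫⁻ y in (fun y => x + r • y) '' U, ‖c - a‖ₑ := by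
            rw [setLIntegral_const, volume_scale x hr0']
        _ = ∫⁻ y in (fun y => x + r • y) '' U, ‖u y - a‖ₑ := by
            apply setLIntegral_congr_fun hmeas
            rintro _ ⟨y, hy, rfl⟩
            simp only [hr y hy]
        _ ≤ _ := lintegral_mono_set hsub
    have h2 : volume (halfBall x r ν) ≤ ENNReal.ofReal (r ^ 2) * V := by
      calc volume (halfBall x r ν) ≤ volume (Metric.ball x r) := measure_mono (halfBall_subset _ _ _)
        _ = _ := by
          rw [Measure.addHaar_ball _ _ hr0'.le]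
          simp [hV]
    unfold meanDist
    have hr2 : ENNReal.ofReal (r ^ 2) ≠ 0 := by
      rw [Ne, ENNReal.ofReal_eq_zero, not_le]; positivity
    calc κ = (‖c - a‖ₑ * (ENNReal.ofReal (r ^ 2) * volume U)) / (ENNReal.ofReal (r ^ 2) * V) := by
          rw [hκ, show ‖c - a‖ₑ * (ENNReal.ofReal (r ^ 2) * volume U) =
            ENNReal.ofReal (r ^ 2) * (‖c - a‖ₑ * volume U) by ring,
            ENNReal.mul_div_mul_left _ _ hr2 ENNReal.ofReal_ne_top]
      _ ≤ _ := ENNReal.div_le_div h1 h2
  have := ge_of_tendsto ht hle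
  exact hκ0 (le_antisymm this zero_le)

/-- the mean distance vanishes if `u = a` on the set -/
lemma meanDist_zero {u : Plane → Plane} {a : Plane} {S : Set Plane} (hS : MeasurableSet S)
    (h : ∀ y ∈ S, u y = a) : meanDist u a S = 0 := by
  unfold meanDist
  rw [setLIntegral_congr_fun (g := fun _ => 0) hS]
  · simp
  · intro y hy; simp [h y hy]

lemma plane_ext {x y : Plane} (h0 : x 0 = y 0) (h1 : x 1 = y 1) : x = y := by
  ext i; fin_cases i
  · exact h0
  · exact h1

lemma inner_eq (x y : Plane) : ⟪x, y⟫ = x 0 * y 0 + x 1 * y 1 := by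
  rw [PiLp.inner_apply, Fin.sum_univ_two]
  simp [mul_comm]

lemma norm_sq_eq' (x : Plane) : ‖x‖ ^ 2 = x 0 ^ 2 + x 1 ^ 2 := by
  rw [EuclideanSpace.real_norm_sq_eq, Fin.sum_univ_two]

lemma wall_pos {a : ℝ} {x : Plane} (h : 0 < x 0) : wall a x = !₂[√(1 - a ^ 2), a] := by
  unfold wall; rw [if_pos h]

lemma wall_neg {a : ℝ} {x : Plane} (h : ¬ 0 < x 0) : wall a x = !₂[√(1 - a ^ 2), -a] := by
  unfold wall; rw [if_neg h]

lemma wall_ne {a : ℝ} (ha : 0 < a) : (!₂[√(1 - a ^ 2), a] : Plane) ≠ !₂[√(1 - a ^ 2), -a] := by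
  intro h
  have := congrFun (congrArg WithLp.ofLp h) 1
  simp at this
  linarith

/-- `IsJump` on the segment -/
lemma isJump_wall {a : ℝ} (ha : 0 < a) {x : Plane} (hx : x 0 = 0) :
    IsJump (wall a) x (EuclideanSpace.single 0 1) !₂[√(1 - a ^ 2), a] !₂[√(1 - a ^ 2), -a] := by
  refine ⟨by simp, wall_ne ha, ?_, ?_⟩
  · apply Tendsto.congr (f₁ := fun _ => 0) _ tendsto_const_nhds
    intro r
    rw [meanDist_zero (isOpen_halfBall _ _ _).measurableSet]
    intro y hy
    apply wall_pos
    have := hy.2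
    rw [inner_eq] at this
    simpa [hx] using this
  · apply Tendsto.congr (f₁ := fun _ => 0) _ tendsto_const_nhds
    intro r
    rw [meanDist_zero (isOpen_halfBall _ _ _).measurableSet]
    intro y hy
    apply wall_neg
    have := hy.2
    rw [inner_eq] at this
    have h2 : y 0 < 0 := by simpa [hx] using this
    linarith

/-- on the segment every admissible normal trace is `±√(1-a²)` -/
lemma isJump_wall_unique {a : ℝ} (ha : 0 < a) {x ν b c : Plane} (hx : x 0 = 0)
    (h : IsJump (wall a) x ν b c) : ⟪b, ν⟫ = √(1 - a ^ 2) ∨ ⟪b, ν⟫ = -√(1 - a ^ 2) := by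
  obtain ⟨hν, -, h1, -⟩ := h
  have hν2 : ν 0 ^ 2 + ν 1 ^ 2 = 1 := by rw [← norm_sq_eq', hν]; norm_num
  -- the two open pieces
  set Up : Set Plane := halfBall 0 1 ν ∩ {y | 0 < y 0} with hUp
  set Um : Set Plane := halfBall 0 1 ν ∩ {y | y 0 < 0} with hUm
  have oUp : IsOpen Up := (isOpen_halfBall _ _ _).inter
    (isOpen_lt continuous_const (EuclideanSpace.proj 0 : Plane →L[ℝ] ℝ).continuous)
  have oUm : IsOpen Um := (isOpen_halfBall _ _ _).inter
    (isOpen_lt (EuclideanSpace.proj 0 : Plane →L[ℝ] ℝ).continuous continuous_const)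
  have cUp : Up.Nonempty → b = !₂[√(1 - a ^ 2), a] := by
    intro hne
    apply trace_eq h1 oUp hne inter_subset_left
    filter_upwards [self_mem_nhdsWithin] with r hr y hy
    apply wall_pos
    have h2 : 0 < y 0 := hy.2
    have hr' : (0:ℝ) < r := hr
    simp only [PiLp.add_apply, PiLp.smul_apply, hx, zero_add, smul_eq_mul]
    positivity
  have cUm : Um.Nonempty → b = !₂[√(1 - a ^ 2), -a] := by
    intro hne
    apply trace_eq h1 oUm hne inter_subset_left
    filter_upwards [self_mem_nhdsWithin] with r hr y hy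
    apply wall_neg
    have h2 : y 0 < 0 := hy.2
    have hr' : (0:ℝ) < r := hr
    simp only [PiLp.add_apply, PiLp.smul_apply, hx, zero_add, smul_eq_mul, not_lt]
    exact (mul_neg_of_pos_of_neg hr' h2).le
  have hmem : ∀ y : Plane, y 0 ^ 2 + y 1 ^ 2 < 1 → 0 < y 0 * ν 0 + y 1 * ν 1 →
      y ∈ halfBall 0 1 ν := by
    intro y hy1 hy2
    constructor
    · rw [Metric.mem_ball, dist_zero_right]
      have : ‖y‖ ^ 2 < 1 ^ 2 := by rw [norm_sq_eq']; simpa using hy1
      exact lt_of_pow_lt_pow_left₀ 2 (by norm_num) this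
    · rw [sub_zero, inner_eq]; exact hy2
  have hν0 : |ν 0| ≤ 1 := by
    rw [← sq_le_one_iff_abs_le_one]; nlinarith [sq_nonneg (ν 1)]
  have hν1 : |ν 1| ≤ 1 := by
    rw [← sq_le_one_iff_abs_le_one]; nlinarith [sq_nonneg (ν 0)]
  by_cases h0 : ν 1 = 0
  · have h00 : ν 0 = 1 ∨ ν 0 = -1 := by
      rw [h0] at hν2
      have h3 : (ν 0 - 1) * (ν 0 + 1) = 0 := by linear_combination hν2
      rcases mul_eq_zero.1 h3 with h | h
      · left; linarith
      · right; linarith
    rcases h00 with h00 | h00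
    · left
      have : b = !₂[√(1 - a ^ 2), a] := by
        apply cUp
        refine ⟨!₂[1 / 2, 0], hmem _ ?_ ?_, ?_⟩
        · simp; norm_num
        · simp [h00]
        · simp
      rw [this, inner_eq, h0, h00]; simp
    · right
      have : b = !₂[√(1 - a ^ 2), -a] := by
        apply cUm
        refine ⟨!₂[-(1 / 2), 0], hmem _ ?_ ?_, ?_⟩
        · simp; norm_num
        · simp [h00]
        · simp
      rw [this, inner_eq, h0, h00]; simp
  · exfalso
    have hpos : 0 < |ν 1| := abs_pos.2 h0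
    have hs : SignType.sign (ν 1) * ν 1 = |ν 1| := by
      rcases lt_or_gt_of_ne h0 with h | h
      · simp [sign_neg h, abs_of_neg h]
      · simp [sign_pos h, abs_of_pos h]
    have hs2 : ((SignType.sign (ν 1) : ℝ)) ^ 2 = 1 := by
      rcases lt_or_gt_of_ne h0 with h | h
      · simp [sign_neg h]
      · simp [sign_pos h]
    set s : ℝ := (SignType.sign (ν 1) : ℝ) with hsdef
    have e1 : b = !₂[√(1 - a ^ 2), a] := by
      apply cUp
      refine ⟨!₂[|ν 1| / 4, s / 2], hmem _ ?_ ?_, ?_⟩
      · simp only [Matrix.cons_val_zero, Matrix.cons_val_one]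
        nlinarith
      · simp only [Matrix.cons_val_zero, Matrix.cons_val_one]
        have := (abs_le.1 hν0).1
        nlinarith
      · show 0 < (!₂[|ν 1| / 4, s / 2] : Plane) 0
        simp only [Matrix.cons_val_zero]
        positivity
    have e2 : b = !₂[√(1 - a ^ 2), -a] := by
      apply cUm
      refine ⟨!₂[-(|ν 1| / 4), s / 2], hmem _ ?_ ?_, ?_⟩
      · simp only [Matrix.cons_val_zero, Matrix.cons_val_one]
        nlinarith
      · simp only [Matrix.cons_val_zero, Matrix.cons_val_one]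
        have := (abs_le.1 hν0).2
        nlinarith
      · show (!₂[-(|ν 1| / 4), s / 2] : Plane) 0 < 0
        simp only [Matrix.cons_val_zero]
        linarith
    exact wall_ne ha (e1.symm.trans e2)

end

end Pool.Agent.H.MP_fc6706_an
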