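import Pool.Agent.H.MP_fc6706_an.Jump

set_option autoImplicit false

namespace Pool.Agent.H.MP_fc6706_an

open MeasureTheory Filter Topology Set
open scoped ENNReal ContDiff RealInnerProductSpace Pointwise

noncomputable section

lemma halfBall_nonempty {ν : Plane} (hν : ‖ν‖ = 1) : (halfBall 0 1 ν).Nonempty := by
  refine ⟨(1 / 2 : ℝ) • ν, ?_, ?_⟩
  · rw [Metric.mem_ball, dist_zero_right, norm_smul, hν]; norm_num
  · rw [sub_zero, inner_smul_left, real_inner_self_eq_norm_sq, hν]; norm_num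

/-- no jump off the segment -/
lemma not_isJump_wall {a : ℝ} {x ν b c : Plane} (hx : x 0 ≠ 0) : ¬ IsJump (wall a) x ν b c := by
  rintro ⟨hν, hbc, h1, h2⟩
  obtain ⟨k, hk⟩ : ∃ k : Plane, ∀ᶠ r : ℝ in 𝓝[>] 0, ∀ y : Plane, ‖y‖ < 1 →
      wall a (x + r • y) = k := by
    have hr : ∀ᶠ r : ℝ in 𝓝[>] 0, r < |x 0| :=
      nhdsWithin_le_nhds (gt_mem_nhds (abs_pos.2 hx))
    have hy : ∀ y : Plane, ‖y‖ < 1 → |y 0| < 1 := by
      intro y hy
      exact (PiLp.norm_apply_le y 0).trans_lt hy
    rcases lt_or_gt_of_ne hx with h | h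
    · refine ⟨!₂[√(1 - a ^ 2), -a], ?_⟩
      filter_upwards [hr, self_mem_nhdsWithin] with r hr1 hr0 y hy1
      have hr0' : (0 : ℝ) < r := hr0
      apply wall_neg
      simp only [PiLp.add_apply, PiLp.smul_apply, smul_eq_mul, not_lt]
      have h3 := (abs_lt.1 (hy y hy1)).2
      rw [abs_of_neg h] at hr1
      nlinarith
    · refine ⟨!₂[√(1 - a ^ 2), a], ?_⟩
      filter_upwards [hr, self_mem_nhdsWithin] with r hr1 hr0 y hy1
      have hr0' : (0 : ℝ) < r := hr0
      apply wall_pos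
      simp only [PiLp.add_apply, PiLp.smul_apply, smul_eq_mul]
      have h3 := (abs_lt.1 (hy y hy1)).1
      rw [abs_of_pos h] at hr1
      nlinarith
  have hb : b = k := by
    apply trace_eq h1 (isOpen_halfBall 0 1 ν) (halfBall_nonempty hν) subset_rfl
    filter_upwards [hk] with r hr y hy
    exact hr y (by simpa using hy.1)
  have hc : c = k := by
    apply trace_eq h2 (isOpen_halfBall 0 1 (-ν)) (halfBall_nonempty (by rwa [norm_neg]))
      subset_rfl
    filter_upwards [hk] with r hr y hy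
    exact hr y (by simpa using hy.1)
  exact hbc (hb.trans hc.symm)

/-- the jump set is the segment -/
lemma jumpSet_wall {a : ℝ} (ha : 0 < a) :
    jumpSet square (wall a) = {x : Plane | x ∈ square ∧ x 0 = 0} := by
  ext x
  constructor
  · rintro ⟨hx, ν, b, c, h⟩
    refine ⟨hx, ?_⟩
    by_contra h0
    exact not_isJump_wall h0 h
  · rintro ⟨hx, h0⟩
    exact ⟨hx, _, _, _, isJump_wall ha h0⟩

lemma measurableSet_segment : MeasurableSet {x : Plane | x ∈ square ∧ x 0 = 0} :=
  measurableSet_square.inter (measurableSet_eq_fun (measurable_coord 0) measurable_const)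

/-- its length is `2` -/
lemma length_segment : (μH[1] : Measure Plane) {x : Plane | x ∈ square ∧ x 0 = 0} = 2 := by
  have e : {x : Plane | x ∈ square ∧ x 0 = 0} = (fun t : ℝ => (!₂[0, t] : Plane)) '' Ioo (-1) 1 := by
    ext x
    constructor
    · rintro ⟨hx, h0⟩
      refine ⟨x 1, abs_lt.1 hx.2, ?_⟩
      apply plane_ext
      · simp [h0]
      · simp
    · rintro ⟨t, ht, rfl⟩
      refine ⟨⟨by simp, ?_⟩, by simp⟩
      simpa using abs_lt.2 ht
  have hiso : Isometry (fun t : ℝ => (!₂[0, t] : Plane)) := by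
    apply Isometry.of_dist_eq
    intro s t
    rw [EuclideanSpace.dist_eq]
    simp [Real.sqrt_sq_eq_abs, Real.dist_eq]
  rw [e, hiso.hausdorffMeasure_image (Or.inl zero_le_one), hausdorffMeasure_real, Real.volume_Ioo]
  norm_num

lemma wallCost_neg (p z : ℝ) : wallCost p (-z) = wallCost p z := by
  unfold wallCost; simp

/-- the wall energy of the wall equals `2 K_p` -/
lemma jumpEnergy_wall {p a : ℝ} (ha : 0 < a) :
    jumpEnergy p square (wall a) = ENNReal.ofReal (wallCost p √(1 - a ^ 2)) * 2 := by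
  unfold jumpEnergy
  rw [jumpSet_wall ha]
  have h : ∀ x ∈ {x : Plane | x ∈ square ∧ x 0 = 0},
      (⨆ (ν : Plane) (b : Plane) (c : Plane) (_ : IsJump (wall a) x ν b c),
        ENNReal.ofReal (wallCost p ⟪b, ν⟫)) = ENNReal.ofReal (wallCost p √(1 - a ^ 2)) := by
    rintro x ⟨hx, h0⟩
    apply le_antisymm
    · refine iSup_le fun ν => iSup_le fun b => iSup_le fun c => iSup_le fun hj => ?_
      rcases isJump_wall_unique ha h0 hj with h | h
      · rw [h]
      · rw [h, wallCost_neg]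
    · have hj := isJump_wall ha h0
      refine le_trans (le_of_eq ?_) (le_iSup_of_le _ (le_iSup_of_le _ (le_iSup_of_le _
        (le_iSup_of_le hj le_rfl))))
      congr 2
      rw [inner_eq]
      simp
  rw [setLIntegral_congr_fun measurableSet_segment h, setLIntegral_const, length_segment]

/-- lower bound for the one-dimensional cost -/
lemma wallCost_lower {p a : ℝ} (hp0 : 0 < p) (hp1 : p < 1) (ha : 0 < a) (ha1 : a ≤ 1) :
    3 / 2 * a ^ (1 + p) ≤ wallCost p √(1 - a ^ 2) := by
  unfold wallCost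
  have h1 : 0 ≤ 1 - a ^ 2 := by nlinarith
  rw [Real.sq_sqrt h1]
  have e1 : 1 - (1 - a ^ 2) = a ^ 2 := by ring
  rw [e1, Real.sqrt_sq ha.le]
  have hcont : Continuous fun y : ℝ => (a ^ 2 - y ^ 2) ^ (p / 2) := by
    apply Continuous.rpow_const (by fun_prop)
    intro y; right; positivity
  have hnn : ∀ y ∈ Icc (-a) a, 0 ≤ (a ^ 2 - y ^ 2) ^ (p / 2) := by
    intro y hy
    apply Real.rpow_nonneg
    nlinarith [hy.1, hy.2]
  have h2 : ∫ y in (-(a / 2))..(a / 2), (a ^ 2 - y ^ 2) ^ (p / 2) ≤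
      ∫ y in (-a)..a, (a ^ 2 - y ^ 2) ^ (p / 2) := by
    apply intervalIntegral.integral_mono_interval (by linarith) (by linarith) (by linarith)
    · filter_upwards [ae_restrict_mem measurableSet_Ioc] with y hy
      exact hnn y ⟨hy.1.le, hy.2⟩
    · exact hcont.intervalIntegrable _ _
  have h3 : ∫ _y in (-(a / 2))..(a / 2), (3 / 4 * a ^ p) ≤
      ∫ y in (-(a / 2))..(a / 2), (a ^ 2 - y ^ 2) ^ (p / 2) := by
    apply intervalIntegral.integral_mono_on (by linarith) (by simp)
      (hcont.intervalIntegrable _ _)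
    intro y hy
    have h4 : 3 / 4 * a ^ 2 ≤ a ^ 2 - y ^ 2 := by nlinarith [hy.1, hy.2]
    calc 3 / 4 * a ^ p ≤ (3 / 4 : ℝ) ^ (p / 2) * a ^ p := by
          gcongr
          calc (3 / 4 : ℝ) = (3 / 4 : ℝ) ^ (1 : ℝ) := by rw [Real.rpow_one]
            _ ≤ (3 / 4 : ℝ) ^ (p / 2) :=
              Real.rpow_le_rpow_of_exponent_ge (by norm_num) (by norm_num) (by linarith)
      _ = (3 / 4 * a ^ 2) ^ (p / 2) := by
          rw [Real.mul_rpow (by norm_num) (by positivity), ← Real.rpow_natCast a 2,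
            ← Real.rpow_mul ha.le]
          congr 2
          push_cast; ring
      _ ≤ _ := by gcongr
  rw [intervalIntegral.integral_const, smul_eq_mul] at h3
  have e2 : a ^ (1 + p) = a * a ^ p := by rw [Real.rpow_add ha, Real.rpow_one]
  rw [e2]
  nlinarith

end

end Pool.Agent.H.MP_fc6706_an
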