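import Pool.Agent.H.MP_fc6706_an.Basic

set_option autoImplicit false

namespace Pool.Agent.H.MP_fc6706_an

open MeasureTheory Filter Topology Set
open scoped ENNReal ContDiff

noncomputable section

/-- unnormalised concentrated periodic function -/
def kk (m t : ℝ) : ℝ := expNegInvGlue (Real.cos (2 * Real.pi * (t - 1 / 2)) - Real.cos (2 * Real.pi * m))

lemma kk_contDiff (m : ℝ) : ContDiff ℝ ∞ (kk m) := by
  unfold kk
  have h : ContDiff ℝ ∞ expNegInvGlue := expNegInvGlue.contDiff
  exact h.comp (by fun_prop)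

lemma kk_nonneg (m t : ℝ) : 0 ≤ kk m t := expNegInvGlue.nonneg _

lemma kk_periodic (m : ℝ) : Function.Periodic (kk m) 1 := by
  intro t
  unfold kk
  have : 2 * Real.pi * (t + 1 - 1 / 2) = 2 * Real.pi * (t - 1 / 2) + 2 * Real.pi := by ring
  rw [this, Real.cos_add_two_pi]

lemma kk_zero {m t : ℝ} (hm : 0 < m) (ht0 : 0 ≤ t) (ht1 : t ≤ 1) (h : m ≤ |t - 1 / 2|) :
    kk m t = 0 := by
  unfold kk
  apply expNegInvGlue.zero_of_nonpos
  have h1 : Real.cos (2 * Real.pi * (t - 1 / 2)) = Real.cos (2 * Real.pi * |t - 1 / 2|) := by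
    rw [← Real.cos_abs, abs_mul, abs_of_pos Real.two_pi_pos]
  rw [h1]
  have h2 : |t - 1 / 2| ≤ 1 / 2 := abs_le.2 ⟨by linarith, by linarith⟩
  have hpi := Real.pi_pos
  have : Real.cos (2 * Real.pi * |t - 1 / 2|) ≤ Real.cos (2 * Real.pi * m) := by
    apply Real.cos_le_cos_of_nonneg_of_le_pi
    · positivity
    · nlinarith
    · nlinarith
  linarith

lemma kk_half_pos {m : ℝ} (hm : 0 < m) (hm2 : m ≤ 1 / 2) : 0 < kk m (1 / 2) := by
  unfold kk
  apply expNegInvGlue.pos_of_pos
  have hpi := Real.pi_pos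
  have : Real.cos (2 * Real.pi * m) < 1 := by
    rw [← Real.cos_zero]
    apply Real.cos_lt_cos_of_nonneg_of_le_pi le_rfl
    · nlinarith
    · positivity
  simp only [sub_self, mul_zero, Real.cos_zero]
  linarith

lemma kk_int_pos {m : ℝ} (hm : 0 < m) (hm2 : m ≤ 1 / 2) : 0 < ∫ t in (0:ℝ)..1, kk m t := by
  apply intervalIntegral.integral_pos one_pos (kk_contDiff m).continuous.continuousOn
  · intro t _; exact kk_nonneg m t
  · exact ⟨1 / 2, ⟨by norm_num, by norm_num⟩, kk_half_pos hm hm2⟩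

lemma exists_osc {p M : ℝ} (hp0 : 0 < p) (hp1 : p < 1) (hM : 0 < M) :
    ∃ h : ℝ → ℝ, ContDiff ℝ ∞ h ∧ (∀ t, 0 ≤ h t) ∧ Function.Periodic h 1 ∧
      ∫ t in (0:ℝ)..1, h t = 1 ∧ ∫ t in (0:ℝ)..1, h t ^ p ≤ M := by
  -- choose m
  obtain ⟨m, hm0, hm1, hm2⟩ : ∃ m : ℝ, 0 < m ∧ m ≤ 1 / 2 ∧ 2 * m ^ (1 - p) ≤ M := by
    have h1 : Tendsto (fun m : ℝ => 2 * m ^ (1 - p)) (𝓝[>] 0) (𝓝 0) := by
      have : ContinuousAt (fun m : ℝ => 2 * m ^ (1 - p)) 0 := by
        apply ContinuousAt.mul continuousAt_const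
        exact Real.continuousAt_rpow_const _ _ (Or.inr (by linarith))
      have h2 := this.tendsto.mono_left (nhdsWithin_le_nhds (s := Ioi (0:ℝ)))
      simpa [Real.zero_rpow (by linarith : (1:ℝ) - p ≠ 0)] using h2
    have h3 : ∀ᶠ m : ℝ in 𝓝[>] 0, 2 * m ^ (1 - p) ≤ M := (h1.eventually (gt_mem_nhds hM)).mono
      fun _ h => le_of_lt h
    have h4 : ∀ᶠ m : ℝ in 𝓝[>] 0, m ∈ Ioc (0:ℝ) (1 / 2) := Ioc_mem_nhdsGT (by norm_num)
    obtain ⟨m, hm, hm'⟩ := (h3.and h4).exists
    exact ⟨m, hm'.1, hm'.2, hm⟩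
  set I := ∫ t in (0:ℝ)..1, kk m t with hI
  have hIpos : 0 < I := kk_int_pos hm0 hm1
  have hcd : ContDiff ℝ ∞ (fun t => kk m t / I) := (kk_contDiff m).div_const I
  have hnn : ∀ t, 0 ≤ kk m t / I := fun t => div_nonneg (kk_nonneg m t) hIpos.le
  have hmean : ∫ t in (0:ℝ)..1, kk m t / I = 1 := by
    rw [intervalIntegral.integral_div, ← hI, div_self hIpos.ne']
  refine ⟨fun t => kk m t / I, hcd, hnn, ?_, hmean, ?_⟩
  · intro t; simp only [kk_periodic m t]
  · have hcont : Continuous (fun t => (kk m t / I) ^ p) :=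
      hcd.continuous.rpow_const (fun _ => Or.inr hp0.le)
    have hint : ∀ a b : ℝ, IntervalIntegrable (fun t => (kk m t / I) ^ p) volume a b :=
      fun a b => hcont.intervalIntegrable a b
    have hint' : ∀ a b : ℝ, IntervalIntegrable (fun t => kk m t / I) volume a b :=
      fun a b => hcd.continuous.intervalIntegrable a b
    have z1 : ∫ t in (0:ℝ)..(1 / 2 - m), (kk m t / I) ^ p = 0 := by
      rw [intervalIntegral.integral_congr (g := fun _ => (0:ℝ))]
      · simp
      · intro t ht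
        rw [uIcc_of_le (by linarith)] at ht
        simp only
        rw [kk_zero hm0 ht.1 (by linarith [ht.2]) (by rw [abs_of_nonpos] <;> linarith [ht.2])]
        rw [zero_div, Real.zero_rpow hp0.ne']
    have z2 : ∫ t in (1 / 2 + m)..(1:ℝ), (kk m t / I) ^ p = 0 := by
      rw [intervalIntegral.integral_congr (g := fun _ => (0:ℝ))]
      · simp
      · intro t ht
        rw [uIcc_of_le (by linarith)] at ht
        simp only
        rw [kk_zero hm0 (by linarith [ht.1]) ht.2 (by rw [abs_of_nonneg] <;> linarith [ht.1])]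
        rw [zero_div, Real.zero_rpow hp0.ne']
    have split : ∫ t in (0:ℝ)..1, (kk m t / I) ^ p =
        ∫ t in (1 / 2 - m)..(1 / 2 + m), (kk m t / I) ^ p := by
      rw [← intervalIntegral.integral_add_adjacent_intervals (hint 0 (1 / 2 - m)) (hint _ 1),
        ← intervalIntegral.integral_add_adjacent_intervals (hint (1 / 2 - m) (1 / 2 + m))
          (hint _ 1), z1, z2]
      ring
    have split2 : ∫ t in (1 / 2 - m)..(1 / 2 + m), kk m t / I ≤ 1 := by
      rw [← hmean]
      apply intervalIntegral.integral_mono_interval (by linarith) (by linarith) (by linarith)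
      · exact Filter.Eventually.of_forall fun t => hnn t
      · exact hint' 0 1
    have hK : 0 < m⁻¹ := inv_pos.2 hm0
    rw [split]
    calc ∫ t in (1 / 2 - m)..(1 / 2 + m), (kk m t / I) ^ p
        ≤ ∫ t in (1 / 2 - m)..(1 / 2 + m),
          (p * m⁻¹ ^ (p - 1) * (kk m t / I) + (1 - p) * m⁻¹ ^ p) := by
          apply intervalIntegral.integral_mono_on (by linarith) (hint _ _)
          · exact ((hint' _ _).const_mul _).add (by simp)
          · intro t _
            exact rpow_le_tangent hp0 hp1 (hnn t) hK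
      _ = p * m⁻¹ ^ (p - 1) * (∫ t in (1 / 2 - m)..(1 / 2 + m), kk m t / I)
          + (2 * m) * ((1 - p) * m⁻¹ ^ p) := by
          rw [intervalIntegral.integral_add ((hint' _ _).const_mul _) (by simp),
            intervalIntegral.integral_const_mul, intervalIntegral.integral_const, smul_eq_mul]
          ring
      _ ≤ p * m⁻¹ ^ (p - 1) * 1 + (2 * m) * ((1 - p) * m⁻¹ ^ p) := by
          gcongr
      _ ≤ 2 * m ^ (1 - p) := by
          have e1 : m⁻¹ ^ (p - 1) = m ^ (1 - p) := by
            rw [Real.inv_rpow hm0.le, ← Real.rpow_neg hm0.le]; congr 1; ring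
          have e2 : m * m⁻¹ ^ p = m ^ (1 - p) := by
            rw [Real.inv_rpow hm0.le, ← Real.rpow_neg hm0.le, ← Real.rpow_one_add' hm0.le (by linarith)]
            congr 1
          have e3 : 2 * m * ((1 - p) * m⁻¹ ^ p) = 2 * (1 - p) * (m * m⁻¹ ^ p) := by ring
          rw [e3, e1, e2]
          have : 0 ≤ m ^ (1 - p) := Real.rpow_nonneg hm0.le _
          nlinarith
      _ ≤ M := hm2

/-- antiderivative of `h - 1` -/
def gg (h : ℝ → ℝ) (t : ℝ) : ℝ := ∫ s in (0:ℝ)..t, (h s - 1)

lemma gg_hasDerivAt {h : ℝ → ℝ} (hc : Continuous h) (t : ℝ) : HasDerivAt (gg h) (h t - 1) t :=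
  intervalIntegral.integral_hasDerivAt_right ((hc.sub continuous_const).intervalIntegrable _ _)
    ((hc.sub continuous_const).stronglyMeasurableAtFilter _ _)
    (hc.sub continuous_const).continuousAt

lemma gg_contDiff {h : ℝ → ℝ} (hc : ContDiff ℝ ∞ h) : ContDiff ℝ ∞ (gg h) := by
  rw [contDiff_infty_iff_deriv]
  constructor
  · intro t; exact (gg_hasDerivAt hc.continuous t).differentiableAt
  · have : deriv (gg h) = fun t => h t - 1 := by
      ext t; exact (gg_hasDerivAt hc.continuous t).deriv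
    rw [this]
    exact hc.sub contDiff_const

lemma gg_periodic {h : ℝ → ℝ} (hc : Continuous h) (hp : Function.Periodic h 1)
    (hm : ∫ t in (0:ℝ)..1, h t = 1) : Function.Periodic (gg h) 1 := by
  intro t
  unfold gg
  have hc' : Continuous fun s => h s - 1 := hc.sub continuous_const
  rw [← intervalIntegral.integral_add_adjacent_intervals (hc'.intervalIntegrable 0 t)
    (hc'.intervalIntegrable t (t + 1))]
  have hp' : Function.Periodic (fun s => h s - 1) 1 := by
    intro s; simp only [hp s]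
  have := hp'.intervalIntegral_add_eq t 0
  have h2 : ∫ x in (0:ℝ)..1, (h x - 1) = 0 := by
    rw [intervalIntegral.integral_sub (hc.intervalIntegrable _ _) (by simp), hm]
    simp
  rw [this, zero_add, h2, add_zero]

end

end Pool.Agent.H.MP_fc6706_an
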